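import Pool.Agent.H2.OM

namespace Pool.Agent.Results.MP_6e3918_co.NoSubCut

open Pool.Agent.H2.OM

section Defs
variable {E : Type}

/-- closure in the underlying matroid -/
def cl (L : Set (E → SignType)) (S : Set E) : Set E :=
  {e | ∀ X ∈ L, (∀ f ∈ S, X f = 0) → X e = 0}

def IsFlat (L : Set (E → SignType)) (F : Set E) : Prop := cl L F = F

def Indep (L : Set (E → SignType)) (I : Set E) : Prop := ∀ e ∈ I, e ∉ cl L (I \ {e})

/-- rank in the underlying matroid -/
noncomputable def rk (L : Set (E → SignType)) (S : Set E) : ℕ :=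
  sSup {k | ∃ I ⊆ S, Indep L I ∧ I.ncard = k}

def IsSimple (L : Set (E → SignType)) : Prop :=
  (∀ e, e ∉ cl L ∅) ∧ ∀ e f, e ≠ f → e ∉ cl L {f}

structure IsModularCut (L : Set (E → SignType)) (M : Set (Set E)) : Prop where
  flat : ∀ F ∈ M, IsFlat L F
  up : ∀ F ∈ M, ∀ G, IsFlat L G → F ⊆ G → G ∈ M
  inter : ∀ F ∈ M, ∀ G ∈ M, rk L F + rk L G = rk L (F ∪ G) + rk L (F ∩ G) → F ∩ G ∈ M

/-- `L'` is a single-element extension of `L` by the new element `none` -/
def IsExtension (L : Set (E → SignType)) (L' : Set (Option E → SignType)) : Prop :=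
  IsOM L' ∧ (fun X e => X (some e)) '' L' = L

/-- the modular cut determined by the extension -/
def cutOf (L : Set (E → SignType)) (L' : Set (Option E → SignType)) : Set (Set E) :=
  {F | IsFlat L F ∧ none ∈ cl L' (some '' F)}

end Defs

def val (y : Fin 4 → ℝ) : Fin 9 → ℝ :=
  ![y 0, y 0 + y 3, y 1, y 1 + y 3, y 2, y 2 + y 3, y 1 - y 2, y 2 - y 0, y 0 - y 1]

def val' (y : Fin 4 → ℝ) : Option (Fin 9) → ℝ
  | none => y 3
  | some e => val y e

def valL : (Fin 4 → ℝ) →ₗ[ℝ] (Fin 9 → ℝ) where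
  toFun := val
  map_add' x y := by ext e; fin_cases e <;> simp [val] <;> ring
  map_smul' c x := by ext e; fin_cases e <;> simp [val] <;> ring

def valL' : (Fin 4 → ℝ) →ₗ[ℝ] (Option (Fin 9) → ℝ) where
  toFun := val'
  map_add' x y := by
    ext e; cases e with
    | none => simp [val']
    | some e => exact congrFun (valL.map_add x y) e
  map_smul' c x := by
    ext e; cases e with
    | none => simp [val']
    | some e => exact congrFun (valL.map_smul c x) e

def L0 : Set (Fin 9 → SignType) := {X | ∃ y, X = fun e => SignType.sign (val y e)}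
def L1 : Set (Option (Fin 9) → SignType) := {X | ∃ y, X = fun e => SignType.sign (val' y e)}

theorem om0 : IsOM L0 := by
  have := isOM_of_submodule (LinearMap.range valL)
  convert this using 1
  ext X; simp only [L0, Set.mem_ofPred_eq, LinearMap.mem_range]
  constructor
  · rintro ⟨y, rfl⟩; exact ⟨_, ⟨y, rfl⟩, rfl⟩
  · rintro ⟨_, ⟨y, rfl⟩, rfl⟩; exact ⟨y, rfl⟩

theorem om1 : IsOM L1 := by
  have := isOM_of_submodule (LinearMap.range valL')
  convert this using 1
  ext X; simp only [L1, Set.mem_ofPred_eq, LinearMap.mem_range]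
  constructor
  · rintro ⟨y, rfl⟩; exact ⟨_, ⟨y, rfl⟩, rfl⟩
  · rintro ⟨_, ⟨y, rfl⟩, rfl⟩; exact ⟨y, rfl⟩

theorem ext1 : IsExtension L0 L1 := by
  refine ⟨om1, ?_⟩
  ext X; constructor
  · rintro ⟨_, ⟨y, rfl⟩, rfl⟩; exact ⟨y, rfl⟩
  · rintro ⟨y, rfl⟩; exact ⟨_, ⟨y, rfl⟩, rfl⟩

theorem mem_cl0 (S : Set (Fin 9)) (e : Fin 9) :
    e ∈ cl L0 S ↔ ∀ y, (∀ f ∈ S, val y f = 0) → val y e = 0 := by
  constructor
  · intro h y hy
    have := h _ ⟨y, rfl⟩ (fun f hf => by simp [hy f hf])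
    simpa using this
  · rintro h _ ⟨y, rfl⟩ hy
    have := h y (fun f hf => by simpa using hy f hf)
    simp [this]

theorem mem_cl1 (S : Set (Option (Fin 9))) (e : Option (Fin 9)) :
    e ∈ cl L1 S ↔ ∀ y, (∀ f ∈ S, val' y f = 0) → val' y e = 0 := by
  constructor
  · intro h y hy
    have := h _ ⟨y, rfl⟩ (fun f hf => by simp [hy f hf])
    simpa using this
  · rintro h _ ⟨y, rfl⟩ hy
    have := h y (fun f hf => by simpa using hy f hf)
    simp [this]

def vz (y : Fin 4 → ℤ) : Option (Fin 9) → ℤ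
  | none => y 3
  | some e => ![y 0, y 0 + y 3, y 1, y 1 + y 3, y 2, y 2 + y 3, y 1 - y 2, y 2 - y 0, y 0 - y 1] e

theorem vz_cast (y : Fin 4 → ℤ) (e : Option (Fin 9)) :
    val' (fun i => (y i : ℝ)) e = (vz y e : ℝ) := by
  cases e with
  | none => rfl
  | some e => fin_cases e <;> simp [val', val, vz]

theorem simple1 : IsSimple L1 := by
  have key : ∀ e f : Option (Fin 9), e ≠ f → ∃ a b c d : Fin 3,
      vz ![(a : ℤ) - 1, (b : ℤ) - 1, (c : ℤ) - 1, (d : ℤ) - 1] f = 0 ∧
      vz ![(a : ℤ) - 1, (b : ℤ) - 1, (c : ℤ) - 1, (d : ℤ) - 1] e ≠ 0 := by decide +kernel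
  have h2 : ∀ e f, e ≠ f → e ∉ cl L1 {f} := by
    intro e f hef h
    obtain ⟨a, b, c, d, h1, h2⟩ := key e f hef
    rw [mem_cl1] at h
    have := h (fun i => ((![(a : ℤ) - 1, (b : ℤ) - 1, (c : ℤ) - 1, (d : ℤ) - 1] i : ℤ) : ℝ))
      (by rintro g rfl; rw [vz_cast, h1]; simp)
    rw [vz_cast] at this
    exact h2 (by exact_mod_cast this)
  refine ⟨fun e h => ?_, h2⟩
  obtain ⟨f, hf⟩ := exists_ne e
  apply h2 e f hf.symm
  intro X hX _
  exact h X hX (by simp)

def H1 : Set (Fin 9) := {0, 1, 6}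
def H2 : Set (Fin 9) := {2, 3, 7}
def H3 : Set (Fin 9) := {4, 5, 8}
def M' : Set (Set (Fin 9)) := {H1, H2, H3, Set.univ}

theorem subset_cl (S : Set (Fin 9)) : S ⊆ cl L0 S := fun e he _ _ h => h e he

theorem flat_of (S : Set (Fin 9)) (y : Fin 4 → ℝ) (h : ∀ e, val y e = 0 ↔ e ∈ S) :
    IsFlat L0 S := by
  apply Set.Subset.antisymm _ (subset_cl S)
  intro e he
  rw [mem_cl0] at he
  exact (h e).1 (he y (fun f hf => (h f).2 hf))

theorem flat1 : IsFlat L0 H1 :=
  flat_of _ ![0, 1, 1, 0] (by intro e; fin_cases e <;> simp [val, H1])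
theorem flat2 : IsFlat L0 H2 :=
  flat_of _ ![1, 0, 1, 0] (by intro e; fin_cases e <;> simp [val, H2])
theorem flat3 : IsFlat L0 H3 :=
  flat_of _ ![1, 1, 0, 0] (by intro e; fin_cases e <;> simp [val, H3])
theorem flatU : IsFlat L0 Set.univ := Set.Subset.antisymm (Set.subset_univ _) (subset_cl _)

theorem zero_of (y : Fin 4 → ℝ) (h0 : y 0 = 0) (h1 : y 1 = 0) (h2 : y 2 = 0) (h3 : y 3 = 0)
    (e : Fin 9) : val y e = 0 := by
  fin_cases e <;> simp [val, h0, h1, h2, h3]

theorem up_gen (H G : Set (Fin 9)) (hG : IsFlat L0 G) (hHG : H ⊆ G)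
    (hmax : ∀ y, (∀ f ∈ H, val y f = 0) → ∀ e ∉ H, val y e = 0 → ∀ f, val y f = 0) :
    G = H ∨ G = Set.univ := by
  by_cases h : G ⊆ H
  · exact Or.inl (Set.Subset.antisymm h hHG)
  · right
    obtain ⟨e, he, heH⟩ := Set.not_subset.1 h
    apply Set.eq_univ_of_forall
    intro f
    rw [← hG, mem_cl0]
    intro y hy
    exact hmax y (fun g hg => hy g (hHG hg)) e heH (hy e he) f

theorem bdd (S : Set (Fin 9)) : BddAbove {k | ∃ I ⊆ S, Indep L0 I ∧ I.ncard = k} :=
  ⟨9, by
    rintro k ⟨I, -, -, rfl⟩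
    simpa using Set.ncard_le_card I⟩

theorem rk_empty : rk L0 ∅ = 0 := by
  apply Nat.eq_zero_of_le_zero
  apply csSup_le'
  rintro k ⟨I, hI, -, rfl⟩
  simp [Set.subset_empty_iff.1 hI]

theorem rk_ge (S : Set (Fin 9)) (h : Indep L0 S) : S.ncard ≤ rk L0 S :=
  le_csSup (bdd S) ⟨S, subset_rfl, h, rfl⟩

theorem rk_lt (S : Set (Fin 9)) (h : ¬ Indep L0 S) : rk L0 S < S.ncard := by
  have hne : S.ncard ≠ 0 := by
    intro h0
    rw [Set.ncard_eq_zero (Set.toFinite S)] at h0
    subst h0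
    exact h (by simp [Indep])
  have : rk L0 S ≤ S.ncard - 1 := by
    apply csSup_le'
    rintro k ⟨I, hI, hind, rfl⟩
    have : I ≠ S := fun e => h (e ▸ hind)
    have := Set.ncard_lt_ncard (hI.ssubset_of_ne this) (Set.toFinite S)
    omega
  omega

theorem indep_of (S : Set (Fin 9)) (w : Fin 9 → Fin 4 → ℝ)
    (h : ∀ e ∈ S, val (w e) e ≠ 0 ∧ ∀ f ∈ S, f ≠ e → val (w e) f = 0) : Indep L0 S := by
  intro e he hc
  rw [mem_cl0] at hc
  exact (h e he).1 (hc _ (fun f hf => (h e he).2 f hf.1 hf.2))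

theorem rk1 : 3 ≤ rk L0 H1 := by
  have h := rk_ge H1 (indep_of _
    ![![1, 0, 0, -1], ![0, 0, 0, 1], 0, 0, 0, 0, ![0, 1, 0, 0], 0, 0] (by
      intro e he
      rcases he with rfl | rfl | rfl <;> simp [val, H1]))
  have : H1.ncard = 3 := by simp [H1, Set.ncard_eq_toFinset_card']
  omega

theorem rk2 : 3 ≤ rk L0 H2 := by
  have h := rk_ge H2 (indep_of _
    ![0, 0, ![0, 1, 0, -1], ![0, 0, 0, 1], 0, 0, 0, ![0, 0, 1, 0], 0] (by
      intro e he
      rcases he with rfl | rfl | rfl <;> simp [val, H2]))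
  have : H2.ncard = 3 := by simp [H2, Set.ncard_eq_toFinset_card']
  omega

theorem rk3 : 3 ≤ rk L0 H3 := by
  have h := rk_ge H3 (indep_of _
    ![0, 0, 0, 0, ![0, 0, 1, -1], ![0, 0, 0, 1], 0, 0, ![1, 0, 0, 0]] (by
      intro e he
      rcases he with rfl | rfl | rfl <;> simp [val, H3]))
  have : H3.ncard = 3 := by simp [H3, Set.ncard_eq_toFinset_card']
  omega

theorem not_modular (A B : Set (Fin 9)) (hA : 3 ≤ rk L0 A) (hB : 3 ≤ rk L0 B)
    (hAB : A ∩ B = ∅) (hc : (A ∪ B).ncard ≤ 6) (hd : ¬ Indep L0 (A ∪ B)) :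
    rk L0 A + rk L0 B ≠ rk L0 (A ∪ B) + rk L0 (A ∩ B) := by
  have := rk_lt _ hd
  rw [hAB, rk_empty]
  omega

theorem nm12 : rk L0 H1 + rk L0 H2 ≠ rk L0 (H1 ∪ H2) + rk L0 (H1 ∩ H2) := by
  refine not_modular _ _ rk1 rk2 (by ext e; fin_cases e <;> simp [H1, H2]) ?_ ?_
  · refine (Set.ncard_union_le _ _).trans ?_
    simp [H1, H2, Set.ncard_eq_toFinset_card']
  · intro h
    apply h 1 (by simp [H1])
    rw [mem_cl0]
    intro y hy
    have a := hy 0 (by simp [H1]); have b := hy 2 (by simp [H2]); have c := hy 3 (by simp [H2])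
    simp [val] at a b c ⊢; linarith

theorem nm13 : rk L0 H1 + rk L0 H3 ≠ rk L0 (H1 ∪ H3) + rk L0 (H1 ∩ H3) := by
  refine not_modular _ _ rk1 rk3 (by ext e; fin_cases e <;> simp [H1, H3]) ?_ ?_
  · refine (Set.ncard_union_le _ _).trans ?_
    simp [H1, H3, Set.ncard_eq_toFinset_card']
  · intro h
    apply h 1 (by simp [H1])
    rw [mem_cl0]
    intro y hy
    have a := hy 0 (by simp [H1]); have b := hy 4 (by simp [H3]); have c := hy 5 (by simp [H3])
    simp [val] at a b c ⊢; linarith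

theorem nm23 : rk L0 H2 + rk L0 H3 ≠ rk L0 (H2 ∪ H3) + rk L0 (H2 ∩ H3) := by
  refine not_modular _ _ rk2 rk3 (by ext e; fin_cases e <;> simp [H2, H3]) ?_ ?_
  · refine (Set.ncard_union_le _ _).trans ?_
    simp [H2, H3, Set.ncard_eq_toFinset_card']
  · intro h
    apply h 3 (by simp [H2])
    rw [mem_cl0]
    intro y hy
    have a := hy 2 (by simp [H2]); have b := hy 4 (by simp [H3]); have c := hy 5 (by simp [H3])
    simp [val] at a b c ⊢; linarith

theorem cut' : IsModularCut L0 M' := by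
  refine ⟨?_, ?_, ?_⟩
  · rintro F (rfl | rfl | rfl | rfl)
    exacts [flat1, flat2, flat3, flatU]
  · rintro F (rfl | rfl | rfl | rfl) G hG hFG
    · rcases up_gen H1 G hG hFG (by
        intro y hy e he h0
        have a := hy 0 (by simp [H1]); have b := hy 1 (by simp [H1]); have c := hy 6 (by simp [H1])
        simp [val] at a b c
        fin_cases e <;> simp [H1] at he <;> simp [val] at h0 <;>
          exact zero_of y (by linarith) (by linarith) (by linarith) (by linarith)) with h | h <;>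
      simp [M', h]
    · rcases up_gen H2 G hG hFG (by
        intro y hy e he h0
        have a := hy 2 (by simp [H2]); have b := hy 3 (by simp [H2]); have c := hy 7 (by simp [H2])
        simp [val] at a b c
        fin_cases e <;> simp [H2] at he <;> simp [val] at h0 <;>
          exact zero_of y (by linarith) (by linarith) (by linarith) (by linarith)) with h | h <;>
      simp [M', h]
    · rcases up_gen H3 G hG hFG (by
        intro y hy e he h0
        have a := hy 4 (by simp [H3]); have b := hy 5 (by simp [H3]); have c := hy 8 (by simp [H3])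
        simp [val] at a b c
        fin_cases e <;> simp [H3] at he <;> simp [val] at h0 <;>
          exact zero_of y (by linarith) (by linarith) (by linarith) (by linarith)) with h | h <;>
      simp [M', h]
    · rw [Set.univ_subset_iff.1 hFG]; simp [M']
  · rintro F (rfl | rfl | rfl | rfl) G (rfl | rfl | rfl | rfl) h
    · simp [M']
    · exact absurd h nm12
    · exact absurd h nm13
    · simp [M']
    · rw [add_comm, Set.union_comm, Set.inter_comm] at h; exact absurd h nm12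
    · simp [M']
    · exact absurd h nm23
    · simp [M']
    · rw [add_comm, Set.union_comm, Set.inter_comm] at h; exact absurd h nm13
    · rw [add_comm, Set.union_comm, Set.inter_comm] at h; exact absurd h nm23
    · simp [M']
    · simp [M']
    · simp [M']
    · simp [M']
    · simp [M']
    · simp [M']

theorem sub_cut : M' ⊆ cutOf L0 L1 := by
  have key : ∀ (F : Set (Fin 9)) (a b : Fin 9), a ∈ F → b ∈ F →
      (∀ y, val y b = val y a + y 3) → none ∈ cl L1 (some '' F) := by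
    intro F a b ha hb h
    rw [mem_cl1]
    intro y hy
    have h1 : val y a = 0 := hy _ ⟨a, ha, rfl⟩
    have h2 : val y b = 0 := hy _ ⟨b, hb, rfl⟩
    have := h y
    change y 3 = 0
    linarith
  rintro F (rfl | rfl | rfl | rfl)
  · exact ⟨flat1, key _ 0 1 (by simp [H1]) (by simp [H1]) (fun y => by simp [val])⟩
  · exact ⟨flat2, key _ 2 3 (by simp [H2]) (by simp [H2]) (fun y => by simp [val])⟩
  · exact ⟨flat3, key _ 4 5 (by simp [H3]) (by simp [H3]) (fun y => by simp [val])⟩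
  · exact ⟨flatU, key _ 0 1 (by simp) (by simp) (fun y => by simp [val])⟩

theorem lift (L2 : Set (Option (Fin 9) → SignType)) (hext : IsExtension L0 L2)
    (hcut : cutOf L0 L2 = M') (F : Set (Fin 9)) (y0 : Fin 4 → ℝ)
    (hF : ∀ e, val y0 e = 0 ↔ e ∈ F) (hn : F ∉ M')
    (hline : ∀ y, (∀ f ∈ F, val y f = 0) → ∃ a : ℝ, y = a • y0) :
    ∃ X ∈ L2, X none ≠ 0 ∧ ∀ e, X (some e) = SignType.sign (val y0 e) := by
  have h1 : none ∉ cl L2 (some '' F) := fun h => hn (hcut ▸ ⟨flat_of F y0 hF, h⟩)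
  simp only [cl, Set.mem_ofPred_eq, not_forall] at h1
  obtain ⟨X, hX, hz, hne⟩ := h1
  have hr : (fun e => X (some e)) ∈ L0 := hext.2 ▸ ⟨X, hX, rfl⟩
  obtain ⟨y, hy⟩ := hr
  have hy' : ∀ e, X (some e) = SignType.sign (val y e) := fun e => congrFun hy e
  obtain ⟨a, rfl⟩ := hline y (fun f hf => by
    have := hz (some f) ⟨f, hf, rfl⟩
    rw [hy'] at this; simpa using this)
  have hs : ∀ e, val (a • y0) e = a * val y0 e := fun e => congrFun (valL.map_smul a y0) e
  rcases lt_trichotomy a 0 with h | h | h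
  · refine ⟨-X, hext.1.neg X hX, by simpa using hne, fun e => ?_⟩
    simp [hy', hs, sign_mul, sign_neg h]
  · exfalso
    have hu : (Set.univ : Set (Fin 9)) ∈ cutOf L0 L2 := by rw [hcut]; simp [M']
    apply hne
    apply hu.2 X hX
    rintro _ ⟨e, -, rfl⟩
    rw [hy', hs, h]; simp
  · refine ⟨X, hX, hne, fun e => ?_⟩
    simp [hy', hs, sign_mul, sign_pos h]

theorem clash (L2 : Set (Option (Fin 9) → SignType)) (hext : IsExtension L0 L2)
    (a b e : Fin 9) (hH : ({a, b, e} : Set (Fin 9)) ∈ cutOf L0 L2)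
    (X Y : Option (Fin 9) → SignType) (hX : X ∈ L2) (hY : Y ∈ L2) (h0 : X none ≠ 0)
    (h1 : X none = Y none) (h2 : X (some e) = -Y (some e)) (h3 : X (some e) ≠ 0)
    (ha : X (some a) = 0 ∧ Y (some a) = 0) (hb : X (some b) = 0 ∧ Y (some b) = 0) : False := by
  obtain ⟨Z, hZ, hZe, hZf⟩ := hext.1.elim X hX Y hY (some e) h2 h3
  have hn : Z none = X none := by
    rw [hZf none]
    · simp [comp, h0]
    · rw [← h1]
      rintro ⟨h, -⟩
      revert h0 h
      cases X none <;> decide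
  have := hH.2 Z hZ (by
    rintro _ ⟨f, (rfl | rfl | rfl), rfl⟩
    · rw [hZf _ (by simp [ha.1])]; simp [comp, ha.1, ha.2]
    · rw [hZf _ (by simp [hb.1])]; simp [comp, hb.1, hb.2]
    · exact hZe)
  exact h0 (hn ▸ this)

theorem result : ∃ (L : Set (Fin 9 → SignType)) (L₁ : Set (Option (Fin 9) → SignType))
    (M : Set (Set (Fin 9))), IsOM L ∧ IsExtension L L₁ ∧ IsSimple L₁ ∧ IsModularCut L M ∧
      M ⊆ cutOf L L₁ ∧ ¬ ∃ L₂, IsExtension L L₂ ∧ cutOf L L₂ = M := by
  refine ⟨L0, L1, M', om0, ext1, simple1, cut', sub_cut, ?_⟩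
  rintro ⟨L2, hext, hcut⟩
  have notin : ∀ (F : Set (Fin 9)) (a b c d : Fin 9), a ∈ F → a ∉ H1 → b ∈ F → b ∉ H2 → c ∈ F →
      c ∉ H3 → d ∉ F → F ∉ M' := by
    rintro F a b c d h1 h2 h3 h4 h5 h6 h7 (rfl | rfl | rfl | rfl)
    exacts [h2 h1, h4 h3, h6 h5, h7 trivial]
  obtain ⟨A, hA, hA0, hA1⟩ := lift L2 hext hcut {2, 3, 4, 5, 6} ![1, 0, 0, 0]
    (by intro e; fin_cases e <;> simp [val])
    (notin _ 2 4 2 0 (by simp) (by simp [H1]) (by simp) (by simp [H2]) (by simp) (by simp [H3])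
      (by simp))
    (by
      intro y hy
      have a := hy 2 (by simp); have b := hy 3 (by simp); have c := hy 4 (by simp)
      simp [val] at a b c
      exact ⟨y 0, by ext i; fin_cases i <;> simp <;> linarith⟩)
  obtain ⟨B, hB, hB0, hB1⟩ := lift L2 hext hcut {0, 1, 4, 5, 7} ![0, 1, 0, 0]
    (by intro e; fin_cases e <;> simp [val])
    (notin _ 4 4 0 2 (by simp) (by simp [H1]) (by simp) (by simp [H2]) (by simp) (by simp [H3])
      (by simp))
    (by
      intro y hy
      have a := hy 0 (by simp); have b := hy 1 (by simp); have c := hy 4 (by simp)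
      simp [val] at a b c
      exact ⟨y 1, by ext i; fin_cases i <;> simp <;> linarith⟩)
  obtain ⟨C, hC, hC0, hC1⟩ := lift L2 hext hcut {0, 1, 2, 3, 8} ![0, 0, 1, 0]
    (by intro e; fin_cases e <;> simp [val])
    (notin _ 2 0 0 4 (by simp) (by simp [H1]) (by simp) (by simp [H2]) (by simp) (by simp [H3])
      (by simp))
    (by
      intro y hy
      have a := hy 0 (by simp); have b := hy 1 (by simp); have c := hy 2 (by simp)
      simp [val] at a b c
      exact ⟨y 2, by ext i; fin_cases i <;> simp <;> linarith⟩)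
  have m1 : ({0, 1, 6} : Set (Fin 9)) ∈ cutOf L0 L2 := by rw [hcut]; exact Or.inl rfl
  have m2 : ({2, 3, 7} : Set (Fin 9)) ∈ cutOf L0 L2 := by rw [hcut]; exact Or.inr (Or.inl rfl)
  have m3 : ({4, 5, 8} : Set (Fin 9)) ∈ cutOf L0 L2 := by
    rw [hcut]; exact Or.inr (Or.inr (Or.inl rfl))
  have tri : A none = B none ∨ B none = C none ∨ C none = A none := by
    revert hA0 hB0 hC0
    cases A none <;> cases B none <;> cases C none <;> decide
  rcases tri with h | h | h
  · exact clash L2 hext 4 5 8 m3 A B hA hB hA0 h (by simp [hA1, hB1, val])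
      (by simp [hA1, val]) (by simp [hA1, hB1, val]) (by simp [hA1, hB1, val])
  · exact clash L2 hext 0 1 6 m1 B C hB hC hB0 h (by simp [hB1, hC1, val])
      (by simp [hB1, val]) (by simp [hB1, hC1, val]) (by simp [hB1, hC1, val])
  · exact clash L2 hext 2 3 7 m2 C A hC hA hC0 h (by simp [hA1, hC1, val])
      (by simp [hC1, val]) (by simp [hA1, hC1, val]) (by simp [hA1, hC1, val])

end Pool.Agent.Results.MP_6e3918_co.NoSubCut
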